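import Pool.Agent.H223.EM.MDefs
import Pool.Agent.H306R2.EPLim

set_option autoImplicit false

/-!
Eighth moment lower bound, task MS2: mean square of `c2`.
-/

namespace Pool.Agent.H19R2.EM

open Finset Filter Topology MeasureTheory Complex
open Pool.Agent.H306R2 Pool.Agent.H306R2.SM Pool.Agent.H223.EM

noncomputable section

lemma et_cont (ε : ℝ) : Continuous (et ε) := sc_cont _ _

lemma et_zero {ε x : ℝ} (hε : 0 < ε) (h : 1 / 2 - ε ≤ x) : et ε x = 0 :=
  sc_eq_zero hε (by linarith)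

lemma f2_zero {ε x y : ℝ} (hε : 0 < ε) (h : 1 / 2 - ε ≤ x ∨ 1 / 2 - ε ≤ y) : f2 ε x y = 0 := by
  unfold f2
  rcases h with h | h
  · rw [et_zero hε h]; ring
  · rw [et_zero hε h]; ring

lemma log_div_ge {ε T : ℝ} (hT : 1 < T) {n : ℕ} (h : ⌊T ^ (1 / 2 - ε)⌋₊ < n) :
    1 / 2 - ε ≤ Real.log n / Real.log T := by
  have hlT : 0 < Real.log T := Real.log_pos hT
  have hT0 : 0 < T := by linarith
  have h1 : T ^ (1 / 2 - ε) < n := (Nat.floor_lt (by positivity)).1 h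
  rw [le_div_iff₀ hlT, ← Real.log_rpow hT0]
  exact Real.log_le_log (by positivity) h1.le

/-- MS2. mean square of `c2` (MI3, karamata) -/
theorem sum_c2_sq
    (MI3 : 0 < kp ∧ KH 2 v2 ∧ ∀ s : Fin 2 → ℝ, (∀ i, 0 < s i) →
      Tendsto (fun L : ℝ => (∑' b : Fin 2 → ℕ, v2 b * ∏ i, (b i : ℝ) ^ (-(s i / L))) / L ^ (8 : ℝ))
        atTop (𝓝 (aF 4 / kp ^ 2 * ∏ i, (s i) ^ (-((![4, 4] : Fin 2 → ℝ) i)))))
    (ε : ℝ) (hε : 0 < ε) (hε1 : ε < 1 / 8) :
    Tendsto (fun T : ℝ => (∑ b ∈ SS' ε T, c2 ε T b ^ 2) / Real.log T ^ 16) atTop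
      (𝓝 (aF 4 * IW2n ε)) := by
  obtain ⟨hk, hKH, hlim⟩ := MI3
  obtain ⟨φ, hφd⟩ : ∃ φ : (Fin 2 → ℝ) → ℝ, φ = fun u => f2 ε (u 0) (u 1) ^ 2 := ⟨_, rfl⟩
  have hφ : Continuous φ := by
    rw [hφd]
    unfold f2
    have h0 : Continuous (fun u : Fin 2 → ℝ => et ε (u 0)) := (et_cont ε).comp (continuous_apply 0)
    have h1 : Continuous (fun u : Fin 2 → ℝ => et ε (u 1)) := (et_cont ε).comp (continuous_apply 1)
    fun_prop
  have h0 : ∀ u : Fin 2 → ℝ, (∀ i, 0 ≤ u i) → (∃ i, 1 / 2 ≤ u i) → φ u = 0 := by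
    rintro u _ ⟨i, hi⟩
    rw [hφd]
    simp only
    rw [f2_zero hε, zero_pow two_ne_zero]
    fin_cases i
    · left
      simp only [Fin.zero_eta, Fin.isValue] at hi
      linarith
    · right
      simp only [Fin.mk_one, Fin.isValue] at hi
      linarith
  have haF : 0 < aF 4 := aF_pos (by norm_num)
  have hK := karamata hKH 8 (aF 4 / kp ^ 2) (by positivity) ![4, 4]
    (by intro i; fin_cases i <;> norm_num) hlim φ hφ (1 / 2) h0 (by norm_num)
  have hK2 := (hK.comp Real.tendsto_log_atTop).const_mul (kp ^ 2)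
  have e : kp ^ 2 * (aF 4 / kp ^ 2 * ∫ u : Fin 2 → ℝ, Gd ![4, 4] u * φ u) = aF 4 * IW2n ε := by
    rw [IW2n, hφd]
    field_simp
  rw [e] at hK2
  refine hK2.congr' ?_
  filter_upwards [eventually_gt_atTop 1] with T hT
  have hlT : 0 < Real.log T := Real.log_pos hT
  simp only [Function.comp_apply]
  have h1 : ∑' b : Fin 2 → ℕ, v2 b * φ (pos (Real.log T) b) =
      ∑ b ∈ SS' ε T, v2 ![b.1, b.2] * φ (pos (Real.log T) ![b.1, b.2]) := by
    rw [← (finTwoArrowEquiv ℕ).symm.tsum_eq]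
    rw [tsum_eq_sum (s := SS' ε T)]
    · rfl
    · intro b hb
      simp only [finTwoArrowEquiv_symm_apply]
      by_cases hc : Nat.Coprime b.1 b.2 ∧ b.1 ≠ 0 ∧ b.2 ≠ 0
      · have h2 : ¬ (b.1 ≤ ⌊T ^ (1 / 2 - ε)⌋₊ ∧ b.2 ≤ ⌊T ^ (1 / 2 - ε)⌋₊) := by
          rintro ⟨h3, h4⟩
          apply hb
          unfold SS'
          rw [mem_filter, mem_product, mem_Icc, mem_Icc]
          exact ⟨⟨⟨by omega, h3⟩, ⟨by omega, h4⟩⟩, hc.1⟩
        rw [not_and_or, not_le, not_le] at h2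
        have h3 : φ (pos (Real.log T) ![b.1, b.2]) = 0 := by
          rw [hφd]
          simp only
          rw [f2_zero hε, zero_pow two_ne_zero]
          rcases h2 with h2 | h2
          · left; exact log_div_ge hT h2
          · right; exact log_div_ge hT h2
        rw [h3, mul_zero]
      · have h3 : v2 ![b.1, b.2] = 0 := by
          unfold v2
          rw [if_neg]
          simpa using hc
        rw [h3, zero_mul]
  rw [h1, Real.rpow_ofNat]
  have h2 : ∑ b ∈ SS' ε T, c2 ε T b ^ 2 = (kp ^ 2 * Real.log T ^ 8) *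
      ∑ b ∈ SS' ε T, v2 ![b.1, b.2] * φ (pos (Real.log T) ![b.1, b.2]) := by
    rw [mul_sum]
    refine sum_congr rfl fun b hb => ?_
    unfold SS' at hb
    rw [mem_filter, mem_product, mem_Icc, mem_Icc] at hb
    obtain ⟨⟨⟨hb1, _⟩, ⟨hb2, _⟩⟩, hc⟩ := hb
    have hb1' : (0:ℝ) < b.1 := by exact_mod_cast hb1
    have hb2' : (0:ℝ) < b.2 := by exact_mod_cast hb2
    have h3 : v2 ![b.1, b.2] = De b.1 ^ 2 * De b.2 ^ 2 / ((b.1 : ℝ) * b.2) := by
      unfold v2
      rw [if_pos]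
      · simp
      · simpa using ⟨hc, by omega, by omega⟩
    have h4 : φ (pos (Real.log T) ![b.1, b.2]) =
        f2 ε (Real.log b.1 / Real.log T) (Real.log b.2 / Real.log T) ^ 2 := by
      rw [hφd]
      simp [pos]
    rw [h3, h4]
    unfold c2
    rw [div_pow, Real.sq_sqrt (by positivity)]
    field_simp
  rw [h2]
  field_simp

end

end Pool.Agent.H19R2.EM
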